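import Mathlib

/-! P/Circ: a certificate of minimal support is a circuit. -/

set_option autoImplicit false

namespace T1

/-- The last step: if all relations are proportional to `lam`, divide by the greatest common
divisor. -/
theorem circuit_of_prop {M : Type} [AddCommGroup M] (T : Finset (M →+ ℤ)) (b : (M →+ ℤ) → ℤ)
    (lam : (M →+ ℤ) → ℕ) (h1 : ∀ n ∈ T, 1 ≤ lam n) (hrel : ∑ n ∈ T, lam n • n = 0)
    (hpos : 0 < ∑ n ∈ T, (lam n : ℤ) * b n)
    (hprop : ∀ μ : (M →+ ℤ) → ℤ, ∑ n ∈ T, μ n • n = 0 → ∀ n ∈ T, ∀ n' ∈ T,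
      μ n * lam n' = μ n' * lam n) :
    ∃ lam' : (M →+ ℤ) → ℕ, (∀ n ∈ T, 1 ≤ lam' n) ∧
      ∑ n ∈ T, lam' n • n = 0 ∧ 0 < ∑ n ∈ T, (lam' n : ℤ) * b n ∧
      ∀ μ : (M →+ ℤ) → ℤ, ∑ n ∈ T, μ n • n = 0 → ∃ c : ℤ, ∀ n ∈ T, μ n = c * lam' n := by
  classical
  obtain ⟨n0, hn0⟩ : T.Nonempty := by
    rw [Finset.nonempty_iff_ne_empty]
    rintro rfl
    simp at hpos
  obtain ⟨g, hg⟩ : ∃ g, g = T.gcd lam := ⟨_, rfl⟩
  obtain ⟨l, hl⟩ : ∃ l : (M →+ ℤ) → ℕ, ∀ n, l n = lam n / g := ⟨_, fun _ => rfl⟩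
  have hgl : ∀ n ∈ T, lam n = g * l n := fun n hn => by
    rw [hl, Nat.mul_div_cancel']
    rw [hg]
    exact Finset.gcd_dvd hn
  have hg0 : 0 < g := by
    rcases Nat.eq_zero_or_pos g with h | h
    · have h2 := hgl n0 hn0
      rw [h, zero_mul] at h2
      have h3 := h1 n0 hn0
      omega
    · exact h
  have hl1 : ∀ n ∈ T, 1 ≤ l n := fun n hn => by
    rcases Nat.eq_zero_or_pos (l n) with h | h
    · have h2 := hgl n hn
      rw [h, mul_zero] at h2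
      have h3 := h1 n hn
      omega
    · exact h
  have hgcd : T.gcd l = 1 := by
    have h2 : T.gcd lam = g * T.gcd l := by
      rw [Finset.gcd_congr rfl hgl, Finset.gcd_mul_left, normalize_eq]
    rw [← hg] at h2
    have h3 : g * 1 = g * T.gcd l := by rw [mul_one]; exact h2
    exact (Nat.eq_of_mul_eq_mul_left hg0 h3).symm
  refine ⟨l, hl1, ?_, ?_, fun μ hμ => ?_⟩
  · have h2 : ∑ n ∈ T, lam n • n = g • ∑ n ∈ T, l n • n := by
      rw [Finset.smul_sum]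
      exact Finset.sum_congr rfl fun n hn => by rw [hgl n hn, mul_smul]
    rw [hrel] at h2
    ext x
    have h3 := congrArg (fun φ : M →+ ℤ => φ x) h2.symm
    simp only [AddMonoidHom.nsmul_apply, AddMonoidHom.zero_apply, nsmul_eq_mul] at h3
    rcases mul_eq_zero.1 h3 with h4 | h4
    · exact absurd h4 (by exact_mod_cast hg0.ne')
    · rw [h4, AddMonoidHom.zero_apply]
  · have h2 : ∑ n ∈ T, (lam n : ℤ) * b n = g * ∑ n ∈ T, (l n : ℤ) * b n := by
      rw [Finset.mul_sum]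
      exact Finset.sum_congr rfl fun n hn => by
        rw [hgl n hn]
        push_cast
        ring
    rw [h2] at hpos
    exact (pos_iff_pos_of_mul_pos hpos).1 (by exact_mod_cast hg0)
  · have h2 : ∀ n ∈ T, ∀ n' ∈ T, μ n * l n' = μ n' * l n := fun n hn n' hn' => by
      have h3 := hprop μ hμ n hn n' hn'
      rw [hgl n hn, hgl n' hn'] at h3
      push_cast at h3
      have h4 : (g : ℤ) * (μ n * l n') = g * (μ n' * l n) := by linarith
      exact mul_left_cancel₀ (by exact_mod_cast hg0.ne') h4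
    have h3 : l n0 ∣ (μ n0).natAbs := by
      have h4 : ∀ n ∈ T, l n0 ∣ (μ n0).natAbs * l n := fun n hn => by
        have h5 : ((l n0 : ℕ) : ℤ) ∣ μ n0 * l n := ⟨μ n, by rw [h2 n0 hn0 n hn]; ring⟩
        have h6 := Int.natAbs_dvd_natAbs.2 h5
        rwa [Int.natAbs_mul, Int.natAbs_natCast, Int.natAbs_natCast] at h6
      have h5 := Finset.dvd_gcd h4
      rwa [Finset.gcd_mul_left, normalize_eq, hgcd, mul_one] at h5
    obtain ⟨c, hc⟩ : ((l n0 : ℕ) : ℤ) ∣ μ n0 := Int.natCast_dvd.2 h3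
    refine ⟨c, fun n hn => ?_⟩
    have h4 := h2 n hn n0 hn0
    rw [hc] at h4
    have h5 : ((l n0 : ℕ) : ℤ) * μ n = (l n0 : ℕ) * (c * l n) := by linarith
    have h6 := hl1 n0 hn0
    exact mul_left_cancel₀ (by exact_mod_cast (by omega : l n0 ≠ 0)) h5

/-- The induction step: a relation which is not proportional gives a smaller certificate. -/
theorem circuit_step {M : Type} [AddCommGroup M] (T : Finset (M →+ ℤ)) (b : (M →+ ℤ) → ℤ)
    (lam : (M →+ ℤ) → ℕ) (h1 : ∀ n ∈ T, 1 ≤ lam n) (hrel : ∑ n ∈ T, lam n • n = 0)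
    (hpos : 0 < ∑ n ∈ T, (lam n : ℤ) * b n) (μ : (M →+ ℤ) → ℤ) (hμ : ∑ n ∈ T, μ n • n = 0)
    (n1 n2 : M →+ ℤ) (hn1 : n1 ∈ T) (hn2 : n2 ∈ T) (hne : μ n1 * lam n2 ≠ μ n2 * lam n1) :
    ∃ a ∈ T, ∃ lam' : (M →+ ℤ) → ℕ, lam' a = 0 ∧ ∑ n ∈ T, lam' n • n = 0 ∧
      0 < ∑ n ∈ T, (lam' n : ℤ) * b n := by
  classical
  have hT : T.Nonempty := ⟨n1, hn1⟩
  obtain ⟨a, ha, ha2⟩ := Finset.exists_min_image T (fun n => (μ n : ℚ) / lam n) hT
  obtain ⟨c, hc, hc2⟩ := Finset.exists_max_image T (fun n => (μ n : ℚ) / lam n) hT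
  have hq : ∀ n ∈ T, (0 : ℚ) < lam n := fun n hn => by exact_mod_cast h1 n hn
  have hz : ∀ n ∈ T, (0 : ℤ) < lam n := fun n hn => by exact_mod_cast h1 n hn
  have ha3 : ∀ n ∈ T, μ a * lam n ≤ μ n * lam a := fun n hn => by
    have h2 := ha2 n hn
    rw [div_le_div_iff₀ (hq a ha) (hq n hn)] at h2
    exact_mod_cast h2
  have hc3 : ∀ n ∈ T, μ n * lam c ≤ μ c * lam n := fun n hn => by
    have h2 := hc2 n hn
    rw [div_le_div_iff₀ (hq n hn) (hq c hc)] at h2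
    exact_mod_cast h2
  have hac : μ a * lam c < μ c * lam a := by
    refine lt_of_le_of_ne (ha3 c hc) fun h => hne ?_
    -- all quotients are equal
    have h2 : ∀ n ∈ T, μ n * lam a = μ a * lam n := fun n hn => by
      refine le_antisymm ?_ (ha3 n hn)
      have h3 := mul_le_mul_of_nonneg_right (hc3 n hn) (hz a ha).le
      have h4 : μ n * lam a * lam c ≤ μ a * lam n * lam c := by
        calc μ n * lam a * lam c = μ n * lam c * lam a := by ring
          _ ≤ μ c * lam n * lam a := h3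
          _ = μ c * lam a * lam n := by ring
          _ = μ a * lam c * lam n := by rw [h]
          _ = μ a * lam n * lam c := by ring
      exact le_of_mul_le_mul_right h4 (hz c hc)
    have h3 := h2 n1 hn1
    have h4 := h2 n2 hn2
    have h5 : (lam a : ℤ) * (μ n1 * lam n2) = lam a * (μ n2 * lam n1) := by
      calc (lam a : ℤ) * (μ n1 * lam n2) = μ n1 * lam a * lam n2 := by ring
        _ = μ a * lam n1 * lam n2 := by rw [h3]
        _ = μ a * lam n2 * lam n1 := by ring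
        _ = μ n2 * lam a * lam n1 := by rw [h4]
        _ = _ := by ring
    exact mul_left_cancel₀ (hz a ha).ne' h5
  -- the two ends
  have hend : ∀ ν : (M →+ ℤ) → ℤ, (∀ n ∈ T, 0 ≤ ν n) → ∑ n ∈ T, ν n • n = 0 →
      0 < ∑ n ∈ T, ν n * b n → ∀ e ∈ T, ν e = 0 →
      ∃ a ∈ T, ∃ lam' : (M →+ ℤ) → ℕ, lam' a = 0 ∧ ∑ n ∈ T, lam' n • n = 0 ∧
        0 < ∑ n ∈ T, (lam' n : ℤ) * b n := by
    intro ν h2 h3 h4 e he h5
    refine ⟨e, he, fun n => (ν n).toNat, ?_, ?_, ?_⟩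
    · show (ν e).toNat = 0
      rw [h5]
      rfl
    · rw [← h3]
      refine Finset.sum_congr rfl fun n hn => ?_
      rw [← natCast_zsmul, Int.toNat_of_nonneg (h2 n hn)]
    · refine h4.trans_le (le_of_eq (Finset.sum_congr rfl fun n hn => ?_))
      rw [Int.toNat_of_nonneg (h2 n hn)]
  have hrel' : ∑ n ∈ T, (lam n : ℤ) • n = 0 := by
    rw [← hrel]
    exact Finset.sum_congr rfl fun n _ => natCast_zsmul _ _
  have hcomb : ∀ s t : ℤ, ∑ n ∈ T, (s * μ n + t * lam n) • n = 0 := fun s t => by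
    have h2 : ∀ n ∈ T, (s * μ n + t * lam n) • n = s • (μ n • n) + t • ((lam n : ℤ) • n) :=
      fun n _ => by rw [add_smul, mul_smul, mul_smul]
    rw [Finset.sum_congr rfl h2, Finset.sum_add_distrib, ← Finset.smul_sum, ← Finset.smul_sum,
      hμ, hrel', smul_zero, smul_zero, add_zero]
  by_cases h2 : 0 < ∑ n ∈ T, ((lam a : ℤ) * μ n + (-μ a) * lam n) * b n
  · refine hend _ (fun n hn => ?_) (hcomb _ _) h2 a ha (by ring)
    have := ha3 n hn
    linarith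
  · refine hend (fun n => (-(lam c : ℤ)) * μ n + μ c * lam n) (fun n hn => ?_) (hcomb _ _) ?_
      c hc (by ring)
    · have := hc3 n hn
      linarith
    · push Not at h2
      have h3 : (lam c : ℤ) * ∑ n ∈ T, ((lam a : ℤ) * μ n + (-μ a) * lam n) * b n +
          lam a * ∑ n ∈ T, ((-(lam c : ℤ)) * μ n + μ c * lam n) * b n =
          (μ c * lam a - μ a * lam c) * ∑ n ∈ T, (lam n : ℤ) * b n := by
        rw [Finset.mul_sum, Finset.mul_sum, Finset.mul_sum, ← Finset.sum_add_distrib]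
        exact Finset.sum_congr rfl fun n _ => by ring
      have h4 : 0 < (μ c * lam a - μ a * lam c) * ∑ n ∈ T, (lam n : ℤ) * b n :=
        mul_pos (by linarith) hpos
      have h5 : (lam c : ℤ) * ∑ n ∈ T, ((lam a : ℤ) * μ n + (-μ a) * lam n) * b n ≤ 0 :=
        mul_nonpos_of_nonneg_of_nonpos (hz c hc).le h2
      have h6 : 0 < (lam a : ℤ) * ∑ n ∈ T, ((-(lam c : ℤ)) * μ n + μ c * lam n) * b n := by
        linarith
      exact (pos_iff_pos_of_mul_pos h6).1 (hz a ha)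

theorem exists_circuit {M : Type} [AddCommGroup M] (T : Finset (M →+ ℤ)) (b : (M →+ ℤ) → ℤ)
    (lam : (M →+ ℤ) → ℕ) (hrel : ∑ n ∈ T, lam n • n = 0)
    (hpos : 0 < ∑ n ∈ T, (lam n : ℤ) * b n) :
    ∃ (T' : Finset (M →+ ℤ)) (lam' : (M →+ ℤ) → ℕ), T' ⊆ T ∧ (∀ n ∈ T', 1 ≤ lam' n) ∧
      ∑ n ∈ T', lam' n • n = 0 ∧ 0 < ∑ n ∈ T', (lam' n : ℤ) * b n ∧
      ∀ μ : (M →+ ℤ) → ℤ, ∑ n ∈ T', μ n • n = 0 → ∃ c : ℤ, ∀ n ∈ T', μ n = c * lam' n := by
  classical
  obtain ⟨k, hk⟩ : ∃ k, T.card = k := ⟨_, rfl⟩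
  induction k using Nat.strong_induction_on generalizing T lam with
  | _ k ih =>
    -- a certificate which vanishes at a point of `T`
    have hred : ∀ a ∈ T, ∀ l : (M →+ ℤ) → ℕ, l a = 0 → ∑ n ∈ T, l n • n = 0 →
        0 < ∑ n ∈ T, (l n : ℤ) * b n →
        ∃ (T' : Finset (M →+ ℤ)) (lam' : (M →+ ℤ) → ℕ), T' ⊆ T ∧ (∀ n ∈ T', 1 ≤ lam' n) ∧
          ∑ n ∈ T', lam' n • n = 0 ∧ 0 < ∑ n ∈ T', (lam' n : ℤ) * b n ∧
          ∀ μ : (M →+ ℤ) → ℤ, ∑ n ∈ T', μ n • n = 0 →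
            ∃ c : ℤ, ∀ n ∈ T', μ n = c * lam' n := by
      intro a ha l hl h2 h3
      have h4 : ∑ n ∈ T.erase a, l n • n = 0 := by
        rw [← h2, ← Finset.add_sum_erase T _ ha, hl, zero_smul, zero_add]
      have h5 : 0 < ∑ n ∈ T.erase a, (l n : ℤ) * b n := by
        rw [← Finset.add_sum_erase T _ ha, hl] at h3
        simpa using h3
      obtain ⟨T', l', h6, h7⟩ := ih (T.erase a).card
        (by rw [← hk]; exact Finset.card_erase_lt_of_mem ha) (T.erase a) l h4 h5 rfl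
      exact ⟨T', l', h6.trans (Finset.erase_subset _ _), h7⟩
    by_cases h1 : ∀ n ∈ T, 1 ≤ lam n
    · by_cases h2 : ∀ μ : (M →+ ℤ) → ℤ, ∑ n ∈ T, μ n • n = 0 → ∀ n ∈ T, ∀ n' ∈ T,
          μ n * lam n' = μ n' * lam n
      · obtain ⟨l, hl⟩ := circuit_of_prop T b lam h1 hrel hpos h2
        exact ⟨T, l, subset_rfl, hl⟩
      · push Not at h2
        obtain ⟨μ, hμ, n1, hn1, n2, hn2, hne⟩ := h2
        obtain ⟨a, ha, l, h3, h4, h5⟩ := circuit_step T b lam h1 hrel hpos μ hμ n1 n2 hn1 hn2 hne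
        exact hred a ha l h3 h4 h5
    · push Not at h1
      obtain ⟨a, ha, h2⟩ := h1
      exact hred a ha lam (by omega) hrel hpos

end T1
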