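import Mathlib

/-! P/Far: Farkas' lemma for finitely many integral inequalities. -/

set_option autoImplicit false

namespace T1

/-- Clearing denominators. -/
theorem exists_den {I : Type} [Fintype I] (x : I → ℚ) :
    ∃ (m : ℕ) (z : I → ℤ), 1 ≤ m ∧ ∀ i, (z i : ℚ) = m * x i := by
  have h1 : ∀ i, ∃ z : ℤ, (z : ℚ) = ((∏ j, (x j).den : ℕ) : ℚ) * x i := by
    intro i
    obtain ⟨c, hc⟩ : (x i).den ∣ ∏ j, (x j).den :=
      Finset.dvd_prod_of_mem (fun j => (x j).den) (Finset.mem_univ i)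
    refine ⟨c * (x i).num, ?_⟩
    rw [hc]
    push_cast
    rw [mul_comm ((x i).den : ℚ) (c : ℚ), mul_assoc, mul_comm ((x i).den : ℚ) (x i),
      Rat.mul_den_eq_num]
  choose z hz using h1
  exact ⟨∏ j, (x j).den, z, Finset.prod_pos fun j _ => (x j).pos, hz⟩

/-- A number between two finite families. -/
theorem exists_between_fin {I : Type} [Fintype I] (p q : I → Prop) (u v : I → ℚ)
    (h : ∀ i j, p i → q j → u i ≤ v j) :
    ∃ x : ℚ, (∀ i, p i → u i ≤ x) ∧ ∀ j, q j → x ≤ v j := by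
  classical
  by_cases hp : (Finset.univ.filter p).Nonempty
  · obtain ⟨i, hi, hi2⟩ := Finset.exists_max_image _ u hp
    rw [Finset.mem_filter] at hi
    refine ⟨u i, fun j hj => hi2 j ?_, fun j hj => h i j hi.2 hj⟩
    rw [Finset.mem_filter]
    exact ⟨Finset.mem_univ _, hj⟩
  · have hp' : ∀ i, ¬ p i := fun i hi => hp ⟨i, Finset.mem_filter.2 ⟨Finset.mem_univ _, hi⟩⟩
    by_cases hq : (Finset.univ.filter q).Nonempty
    · obtain ⟨i, hi, hi2⟩ := Finset.exists_min_image _ v hq
      refine ⟨v i, fun j hj => absurd hj (hp' j), fun j hj => hi2 j ?_⟩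
      rw [Finset.mem_filter]
      exact ⟨Finset.mem_univ _, hj⟩
    · exact ⟨0, fun j hj => absurd hj (hp' j), fun j hj =>
        absurd ⟨j, Finset.mem_filter.2 ⟨Finset.mem_univ _, hj⟩⟩ hq⟩

/-- Farkas' lemma over the rationals. -/
theorem farkas_rat (d : ℕ) : ∀ (I : Type) [Fintype I] (a : I → Fin d → ℚ) (b : I → ℚ),
    (∃ x : Fin d → ℚ, ∀ i, b i ≤ ∑ k, x k * a i k) ∨
    ∃ lam : I → ℚ, (∀ i, 0 ≤ lam i) ∧ (∀ k, ∑ i, lam i * a i k = 0) ∧
      0 < ∑ i, lam i * b i := by
  classical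
  induction d with
  | zero =>
    intro I _ a b
    by_cases h : ∀ i, b i ≤ 0
    · exact Or.inl ⟨0, fun i => by simpa using h i⟩
    · push Not at h
      obtain ⟨i0, hi0⟩ := h
      refine Or.inr ⟨fun i => if i = i0 then 1 else 0, fun i => ?_, fun k => k.elim0, ?_⟩
      · show (0 : ℚ) ≤ if i = i0 then 1 else 0
        split_ifs <;> norm_num
      simpa using hi0
  | succ d ih =>
    intro I _ a b
    -- the rows of the new system: `α (p, q) * row p + β (p, q) * row q`
    obtain ⟨α, hα⟩ : ∃ α : I × I → ℚ, ∀ s, α s = if 0 < a s.1 0 ∧ a s.2 0 < 0 then -a s.2 0 else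
        if a s.1 0 = 0 ∧ s.1 = s.2 then 1 else 0 := ⟨_, fun _ => rfl⟩
    obtain ⟨β, hβ⟩ : ∃ β : I × I → ℚ, ∀ s, β s = if 0 < a s.1 0 ∧ a s.2 0 < 0 then a s.1 0
        else 0 := ⟨_, fun _ => rfl⟩
    have hα0 : ∀ s, 0 ≤ α s := fun s => by
      rw [hα]
      split_ifs with h1 h2
      · linarith [h1.2]
      · norm_num
      · norm_num
    have hβ0 : ∀ s, 0 ≤ β s := fun s => by
      rw [hβ]
      split_ifs with h1
      · exact h1.1.le
      · norm_num
    have hαβ : ∀ s, α s * a s.1 0 + β s * a s.2 0 = 0 := fun s => by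
      rw [hα, hβ]
      split_ifs with h1 h2
      · ring
      · rw [h2.1]
        ring
      · ring
    rcases ih (I × I) (fun s k => α s * a s.1 k.succ + β s * a s.2 k.succ)
      (fun s => α s * b s.1 + β s * b s.2) with ⟨x, hx⟩ | ⟨lam, h0, h1, h2⟩
    · left
      obtain ⟨t, ht⟩ : ∃ t : I → ℚ, ∀ i, t i = b i - ∑ k, x k * a i k.succ := ⟨_, fun _ => rfl⟩
      have h3 : ∀ s, α s * t s.1 + β s * t s.2 ≤ 0 := fun s => by
        have h4 := hx s
        have h5 : ∑ k, x k * (α s * a s.1 k.succ + β s * a s.2 k.succ) =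
            α s * ∑ k, x k * a s.1 k.succ + β s * ∑ k, x k * a s.2 k.succ := by
          rw [Finset.mul_sum, Finset.mul_sum, ← Finset.sum_add_distrib]
          exact Finset.sum_congr rfl fun k _ => by ring
        rw [h5] at h4
        rw [ht, ht]
        linarith
      obtain ⟨x0, hx1, hx2⟩ := exists_between_fin (fun i => 0 < a i 0) (fun i => a i 0 < 0)
        (fun i => t i / a i 0) (fun i => t i / a i 0) (fun i j hi hj => by
          have h4 := h3 (i, j)
          rw [hα, hβ, if_pos ⟨hi, hj⟩, if_pos ⟨hi, hj⟩] at h4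
          have h6 : t i / a i 0 - t j / a j 0 = (-a j 0 * t i + a i 0 * t j) /
              (a i 0 * (-a j 0)) := by
            have h7 : a i 0 ≠ 0 := hi.ne'
            have h8 : a j 0 ≠ 0 := hj.ne
            field_simp
            ring
          have h9 : (-a j 0 * t i + a i 0 * t j) / (a i 0 * (-a j 0)) ≤ 0 :=
            div_nonpos_of_nonpos_of_nonneg h4 (mul_nonneg hi.le (by linarith))
          linarith)
      refine ⟨Fin.cons x0 x, fun i => ?_⟩
      rw [Fin.sum_univ_succ]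
      simp only [Fin.cons_zero, Fin.cons_succ]
      have h4 : t i ≤ x0 * a i 0 := by
        rcases lt_trichotomy (a i 0) 0 with h | h | h
        · have h5 := hx2 i h
          rw [le_div_iff_of_neg h] at h5
          exact h5
        · have h5 := h3 (i, i)
          rw [hα, hβ, if_neg (by rintro ⟨h6, -⟩; exact absurd h6 (by rw [h]; exact lt_irrefl 0)),
            if_pos ⟨h, rfl⟩, if_neg (by
              rintro ⟨h6, -⟩
              exact absurd h6 (by rw [h]; exact lt_irrefl 0))] at h5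
          rw [h]
          linarith
        · have h5 := hx1 i h
          rw [div_le_iff₀ h] at h5
          exact h5
      have h5 := ht i
      linarith
    · right
      have h3 : ∀ f : I → ℚ, ∑ i, (∑ q, lam (i, q) * α (i, q) + ∑ p, lam (p, i) * β (p, i)) * f i =
          ∑ s, lam s * (α s * f s.1 + β s * f s.2) := by
        intro f
        rw [Fintype.sum_prod_type]
        have h4 : ∀ p, ∑ q, lam (p, q) * (α (p, q) * f p + β (p, q) * f q) =
            (∑ q, lam (p, q) * α (p, q)) * f p + ∑ q, lam (p, q) * β (p, q) * f q := fun p => by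
          rw [Finset.sum_mul, ← Finset.sum_add_distrib]
          exact Finset.sum_congr rfl fun q _ => by ring
        rw [Finset.sum_congr rfl fun p _ => h4 p, Finset.sum_add_distrib, Finset.sum_comm,
          ← Finset.sum_add_distrib]
        refine Finset.sum_congr rfl fun i _ => ?_
        rw [add_mul, Finset.sum_mul (f := fun p => lam (p, i) * β (p, i))]
      refine ⟨fun i => ∑ q, lam (i, q) * α (i, q) + ∑ p, lam (p, i) * β (p, i), fun i => ?_,
        fun k => ?_, ?_⟩
      · exact add_nonneg (Finset.sum_nonneg fun q _ => mul_nonneg (h0 _) (hα0 _))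
          (Finset.sum_nonneg fun q _ => mul_nonneg (h0 _) (hβ0 _))
      · rw [h3 fun i => a i k]
        refine Fin.cases ?_ (fun k => ?_) k
        · exact Finset.sum_eq_zero fun s _ => by rw [hαβ s, mul_zero]
        · exact h1 k
      · rw [h3 b]
        exact h2

theorem farkas_int {M : Type} [AddCommGroup M] [Module.Free ℤ M] [Module.Finite ℤ M]
    (T : Finset (M →+ ℤ)) (b : (M →+ ℤ) → ℤ) :
    (∃ (m : ℕ) (m0 : M), 1 ≤ m ∧ ∀ n ∈ T, (m : ℤ) * b n ≤ n m0) ∨
    ∃ lam : (M →+ ℤ) → ℕ, ∑ n ∈ T, lam n • n = 0 ∧ 0 < ∑ n ∈ T, (lam n : ℤ) * b n := by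
  classical
  have bs := Module.finBasis ℤ M
  have hval : ∀ (n : M →+ ℤ) (m : M), n m = ∑ k, bs.repr m k * n (bs k) := fun n m => by
    conv_lhs => rw [← bs.sum_repr m, map_sum]
    refine Finset.sum_congr rfl fun k _ => ?_
    rw [map_zsmul, smul_eq_mul]
  rcases farkas_rat _ {n // n ∈ T} (fun n k => ((n.1 (bs k) : ℤ) : ℚ)) (fun n => (b n.1 : ℚ))
    with ⟨x, hx⟩ | ⟨lam, h0, h1, h2⟩
  · left
    obtain ⟨m, z, hm, hz⟩ := exists_den x
    refine ⟨m, ∑ k, z k • bs k, hm, fun n hn => ?_⟩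
    have h3 : n (∑ k, z k • bs k) = ∑ k, z k * n (bs k) := by
      rw [map_sum]
      exact Finset.sum_congr rfl fun k _ => by rw [map_zsmul, smul_eq_mul]
    rw [h3]
    have h4 := mul_le_mul_of_nonneg_left (hx ⟨n, hn⟩) (Nat.cast_nonneg (α := ℚ) m)
    rw [Finset.mul_sum] at h4
    have h5 : ((m * b n : ℤ) : ℚ) ≤ ((∑ k, z k * n (bs k) : ℤ) : ℚ) := by
      push_cast
      refine h4.trans (le_of_eq (Finset.sum_congr rfl fun k _ => ?_))
      rw [hz k, mul_assoc]
    exact_mod_cast h5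
  · right
    obtain ⟨m, z, hm, hz⟩ := exists_den lam
    have hm0 : (0 : ℚ) < m := by exact_mod_cast hm
    have hz0 : ∀ i, 0 ≤ z i := fun i => by
      have h3 : (0 : ℚ) ≤ z i := by
        rw [hz i]
        exact mul_nonneg hm0.le (h0 i)
      exact_mod_cast h3
    obtain ⟨l, hl⟩ : ∃ l : (M →+ ℤ) → ℕ, ∀ n : {n // n ∈ T}, ((l n.1 : ℕ) : ℤ) = z n := by
      refine ⟨fun n => if h : n ∈ T then (z ⟨n, h⟩).toNat else 0, fun n => ?_⟩
      simp only [dif_pos n.2]
      exact Int.toNat_of_nonneg (hz0 n)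
    have hsum : ∀ f : (M →+ ℤ) → ℤ, ((∑ n ∈ T, (l n : ℤ) * f n : ℤ) : ℚ) =
        m * ∑ n : {n // n ∈ T}, lam n * (f n.1 : ℚ) := fun f => by
      rw [← Finset.sum_coe_sort T, Finset.mul_sum, Int.cast_sum]
      refine Finset.sum_congr rfl fun n _ => ?_
      rw [hl n, Int.cast_mul, hz n, mul_assoc]
    have h3 : ∀ k, ∑ n ∈ T, (l n : ℤ) * n (bs k) = 0 := fun k => by
      have h4 := hsum fun n => n (bs k)
      rw [h1 k, mul_zero] at h4
      exact_mod_cast h4
    refine ⟨l, ?_, ?_⟩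
    · ext x
      rw [AddMonoidHom.finsetSum_apply, AddMonoidHom.zero_apply]
      have h4 : ∀ n ∈ T, (l n • n) x = ∑ k, bs.repr x k * ((l n : ℤ) * n (bs k)) := fun n _ => by
        rw [AddMonoidHom.nsmul_apply, hval n x, nsmul_eq_mul, Finset.mul_sum]
        exact Finset.sum_congr rfl fun k _ => by ring
      rw [Finset.sum_congr rfl h4, Finset.sum_comm]
      refine Finset.sum_eq_zero fun k _ => ?_
      rw [← Finset.mul_sum, h3 k, mul_zero]
    · have h4 := hsum b
      have h5 : (0 : ℚ) < ((∑ n ∈ T, (l n : ℤ) * b n : ℤ) : ℚ) := by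
        rw [h4]
        exact mul_pos hm0 h2
      exact_mod_cast h5

end T1
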