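import Pool.Agent.Lib.MP_23b606_ag.T1.P.Gor
import Pool.Agent.Lib.MP_23b606_ag.T1.P.Far
import Pool.Agent.Lib.MP_23b606_ag.T1.P.Circ

/-! P/Dich: the Fine interior is nonempty or there is a circuit certificate. -/

set_option autoImplicit false

namespace T1

theorem dichotomy {M : Type} [AddCommGroup M] [Module.Free ℤ M] [Module.Finite ℤ M] {ι : Type}
    [Fintype ι] (f : ι → M →₀ ℂ) (hf : ∀ i, f i ≠ 0) :
    (∃ (m : ℕ) (m0 : M), 1 ≤ m ∧ ∀ n : M →+ ℤ, n ≠ 0 →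
      (m : ℤ) * (∑ i, hm (f i) n + 1) ≤ n m0) ∨
    ∃ (J : Type) (_ : Fintype J) (nn : J → M →+ ℤ) (lam : J → ℕ), Nonempty J ∧
      Circ f nn lam := by
  classical
  obtain ⟨T, hT0, hT⟩ := exists_finite f hf
  rcases farkas_int T (fun n => ∑ i, hm (f i) n + 1) with ⟨m, m0, hm1, h1⟩ | ⟨lam, hrel, hpos⟩
  · left
    refine ⟨m, m0, hm1, fun n hn => ?_⟩
    obtain ⟨c, hc1, hc2, hc3⟩ := hT n hn
    have h2 : n m0 = ∑ k ∈ T, (c k : ℤ) * k m0 := by
      conv_lhs => rw [← hc1]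
      rw [AddMonoidHom.finsetSum_apply]
      exact Finset.sum_congr rfl fun k _ => by rw [AddMonoidHom.nsmul_apply, nsmul_eq_mul]
    have h3 : ∑ k ∈ T, (c k : ℤ) * ((m : ℤ) * (∑ i, hm (f i) k + 1)) ≤ n m0 := by
      rw [h2]
      exact Finset.sum_le_sum fun k hk =>
        mul_le_mul_of_nonneg_left (h1 k hk) (Int.natCast_nonneg _)
    have h4 : ∑ k ∈ T, (c k : ℤ) * ((m : ℤ) * (∑ i, hm (f i) k + 1)) =
        (m : ℤ) * (∑ i, hm (f i) n + ((∑ k ∈ T, c k : ℕ) : ℤ)) := by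
      rw [hc3]
      push_cast
      rw [← Finset.sum_add_distrib, Finset.mul_sum]
      exact Finset.sum_congr rfl fun k _ => by ring
    rw [h4] at h3
    refine le_trans (mul_le_mul_of_nonneg_left ?_ (Int.natCast_nonneg _)) h3
    have h5 : (1 : ℤ) ≤ ((∑ k ∈ T, c k : ℕ) : ℤ) := by exact_mod_cast hc2
    linarith
  · right
    obtain ⟨T', l, hT', hl, hrel', hpos', hprim⟩ := exists_circuit T _ lam hrel hpos
    refine ⟨{n // n ∈ T'}, inferInstance, Subtype.val, fun n => l n.1, ?_, ?_, ?_, ?_, ?_, ?_⟩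
    · by_contra h
      rw [not_nonempty_iff, isEmpty_subtype] at h
      rw [Finset.eq_empty_of_forall_notMem h] at hpos'
      simp at hpos'
    · exact fun j => hT0 j.1 (hT' j.2)
    · exact fun j => hl j.1 j.2
    · rw [← hrel', ← Finset.sum_coe_sort T']
    · intro μ hμ
      obtain ⟨ν, hν⟩ : ∃ ν : (M →+ ℤ) → ℤ, ∀ n : {n // n ∈ T'}, ν n.1 = μ n :=
        ⟨fun n => if h : n ∈ T' then μ ⟨n, h⟩ else 0, fun n => by simp only [dif_pos n.2]⟩
      obtain ⟨c, hc⟩ := hprim ν (by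
        rw [← Finset.sum_coe_sort T', ← hμ]
        exact Finset.sum_congr rfl fun n _ => by rw [hν n])
      exact ⟨c, fun j => by rw [← hν j]; exact hc j.1 j.2⟩
    · rw [← Finset.sum_coe_sort T'] at hpos'
      have h2 : ∑ j : {n // n ∈ T'}, (l j.1 : ℤ) * (1 + ∑ i, hm (f i) j.1) =
          ∑ j : {n // n ∈ T'}, (l j.1 : ℤ) * (∑ i, hm (f i) j.1 + 1) :=
        Finset.sum_congr rfl fun j _ => by ring
      rw [h2]
      exact hpos'

end T1
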