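import Pool.Agent.Lib.MP_23b606_ag.T1.S.Sys

/-! P/Gor: finitely many inequalities suffice. -/

set_option autoImplicit false

namespace T1

/-- The elements of a group on which finitely many jointly injective forms are nonnegative are
generated by finitely many nonzero ones. -/
theorem Gor_cone {G K : Type} [AddCommGroup G] [Finite K] (l : K → G →+ ℤ)
    (hinj : ∀ n, (∀ k, l k n = 0) → n = 0) :
    ∃ T : Finset G, (∀ n ∈ T, n ≠ 0 ∧ ∀ k, 0 ≤ l k n) ∧
      ∀ n, (∀ k, 0 ≤ l k n) → ∃ c : G → ℕ, ∑ k ∈ T, c k • k = n := by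
  classical
  let P : AddSubmonoid (K → ℕ) :=
    { carrier := {x | ∃ n : G, ∀ k, l k n = x k}
      add_mem' := by
        rintro x y ⟨n, hn⟩ ⟨n', hn'⟩
        refine ⟨n + n', fun k => ?_⟩
        rw [map_add, hn, hn', Pi.add_apply, Nat.cast_add]
      zero_mem' := ⟨0, fun k => by rw [map_zero, Pi.zero_apply, Nat.cast_zero]⟩ }
  have hP : P.FG := by
    refine AddSubmonoid.fg_of_subtractive ?_
    rintro x ⟨n, hn⟩ y ⟨n', hn'⟩
    refine ⟨n' - n, fun k => ?_⟩
    rw [map_sub, hn, hn', Pi.add_apply, Nat.cast_add, add_sub_cancel_left]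
  obtain ⟨S, hS⟩ := hP
  have hSP : ∀ x ∈ S, x ∈ P := fun x hx => by
    rw [← hS]
    exact AddSubmonoid.subset_closure hx
  have hex : ∀ x : K → ℕ, ∃ n : G, x ∈ P → ∀ k, l k n = x k := by
    intro x
    by_cases hx : x ∈ P
    · obtain ⟨n, hn⟩ := hx
      exact ⟨n, fun _ => hn⟩
    · exact ⟨0, fun h => absurd h hx⟩
  choose N hN using hex
  refine ⟨(S.image N).erase 0, ?_, ?_⟩
  · intro n hn
    rw [Finset.mem_erase, Finset.mem_image] at hn
    obtain ⟨h0, s, hs, rfl⟩ := hn
    refine ⟨h0, fun k => ?_⟩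
    rw [hN s (hSP s hs)]
    exact Int.natCast_nonneg _
  · intro n hn
    have hx : (fun k => (l k n).toNat) ∈ P := ⟨n, fun k => (Int.toNat_of_nonneg (hn k)).symm⟩
    rw [← hS] at hx
    obtain ⟨a, -, ha⟩ := AddSubmonoid.mem_closure_finset.1 hx
    have h1 : n = ∑ s ∈ S, a s • N s := by
      refine sub_eq_zero.1 (hinj _ fun k => ?_)
      rw [map_sub, map_sum]
      have h2 := congrFun ha k
      rw [Finset.sum_apply] at h2
      have h3 : ∑ s ∈ S, l k (a s • N s) = ((∑ s ∈ S, (a s • s) k : ℕ) : ℤ) := by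
        rw [Nat.cast_sum]
        refine Finset.sum_congr rfl fun s hs => ?_
        rw [map_nsmul, hN s (hSP s hs), Pi.smul_apply, nsmul_eq_mul, smul_eq_mul, Nat.cast_mul]
      rw [h3, h2, Int.toNat_of_nonneg (hn k), sub_self]
    have h4 : n ∈ AddSubmonoid.closure (((S.image N).erase 0 : Finset G) : Set G) := by
      rw [h1]
      refine AddSubmonoid.sum_mem _ fun s hs => AddSubmonoid.nsmul_mem _ ?_ _
      by_cases h5 : N s = 0
      · rw [h5]
        exact AddSubmonoid.zero_mem _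
      · exact AddSubmonoid.subset_closure (Finset.mem_coe.2
          (Finset.mem_erase.2 ⟨h5, Finset.mem_image_of_mem _ hs⟩))
    obtain ⟨c, -, hc⟩ := AddSubmonoid.mem_closure_finset.1 h4
    exact ⟨c, hc⟩

theorem exists_finite {M : Type} [AddCommGroup M] [Module.Free ℤ M] [Module.Finite ℤ M] {ι : Type}
    [Fintype ι] (f : ι → M →₀ ℂ) (hf : ∀ i, f i ≠ 0) :
    ∃ T : Finset (M →+ ℤ), (∀ n ∈ T, n ≠ 0) ∧ ∀ n : M →+ ℤ, n ≠ 0 →
      ∃ c : (M →+ ℤ) → ℕ, ∑ k ∈ T, c k • k = n ∧ 1 ≤ ∑ k ∈ T, c k ∧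
        ∑ i, hm (f i) n = ∑ k ∈ T, (c k : ℤ) * ∑ i, hm (f i) k := by
  classical
  set B := Module.Free.chooseBasis ℤ M with hB
  let Idx := Module.Free.ChooseBasisIndex ℤ M
  let sg : Bool → ℤ := fun e => if e then 1 else -1
  have hsg : ∀ e, sg e ≠ 0 := by
    intro e
    cases e <;> decide
  let l : (∀ i, (f i).support) → (Idx → Bool) → ((Σ i, (f i).support) ⊕ Idx) → (M →+ ℤ) →+ ℤ :=
    fun p e => Sum.elim
      (fun x => AddMonoidHom.eval (x.2 : M) - AddMonoidHom.eval (p x.1 : M))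
      (fun k => sg (e k) • AddMonoidHom.eval (B k))
  have hl1 : ∀ p e (i : ι) (m : (f i).support) (n : M →+ ℤ),
      l p e (Sum.inl ⟨i, m⟩) n = n m - n (p i) := fun _ _ _ _ _ => rfl
  have hl2 : ∀ p e (k : Idx) (n : M →+ ℤ), l p e (Sum.inr k) n = sg (e k) * n (B k) :=
    fun _ _ _ _ => rfl
  have hinj : ∀ p e (n : M →+ ℤ), (∀ k, l p e k n = 0) → n = 0 := by
    intro p e n hn
    have h1 : n.toIntLinearMap = 0 := by
      refine B.ext fun k => ?_
      have h2 := hn (Sum.inr k)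
      rw [hl2] at h2
      exact (mul_eq_zero.1 h2).resolve_left (hsg _)
    ext m
    exact LinearMap.congr_fun h1 m
  choose T hT1 hT2 using fun (p : ∀ i, (f i).support) (e : Idx → Bool) =>
    Gor_cone (l p e) (hinj p e)
  refine ⟨Finset.univ.biUnion fun q : (∀ i, (f i).support) × (Idx → Bool) => T q.1 q.2, ?_, ?_⟩
  · intro n hn
    rw [Finset.mem_biUnion] at hn
    obtain ⟨q, -, hq⟩ := hn
    exact (hT1 q.1 q.2 n hq).1
  · intro n hn0
    choose p hp1 hp2 using fun i => exists_eq_hm (f i) (hf i) n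
    let p' : ∀ i, (f i).support := fun i => ⟨p i, hp1 i⟩
    let e : Idx → Bool := fun k => decide (0 ≤ n (B k))
    have hnE : ∀ k, 0 ≤ l p' e k n := by
      rintro (⟨i, m⟩ | k)
      · rw [hl1]
        have h1 := hm_le (f i) n m.2
        have h2 : n (p' i : M) = hm (f i) n := hp2 i
        omega
      · rw [hl2]
        by_cases h1 : 0 ≤ n (B k)
        · have h2 : e k = true := decide_eq_true h1
          rw [h2]
          show 0 ≤ (1 : ℤ) * n (B k)
          omega
        · have h2 : e k = false := decide_eq_false h1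
          rw [h2]
          show 0 ≤ (-1 : ℤ) * n (B k)
          omega
    obtain ⟨c, hc⟩ := hT2 p' e n hnE
    have hsub : T p' e ⊆ Finset.univ.biUnion
        fun q : (∀ i, (f i).support) × (Idx → Bool) => T q.1 q.2 := fun k hk =>
      Finset.mem_biUnion.2 ⟨(p', e), Finset.mem_univ _, hk⟩
    have hhm : ∀ k : M →+ ℤ, (∀ j, 0 ≤ l p' e j k) → ∀ i, hm (f i) k = k (p i) := by
      intro k hk i
      refine le_antisymm (hm_le (f i) k (hp1 i)) ?_
      obtain ⟨m, hm1, hm2⟩ := exists_eq_hm (f i) (hf i) k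
      have h1 := hk (Sum.inl ⟨i, ⟨m, hm1⟩⟩)
      rw [hl1] at h1
      have h2 : k (p' i : M) = k (p i) := rfl
      rw [← hm2]
      have h3 : k ((⟨m, hm1⟩ : (f i).support) : M) = k m := rfl
      omega
    obtain ⟨c', hc1, hc2⟩ : ∃ c' : (M →+ ℤ) → ℕ, (∀ k ∈ T p' e, c' k = c k) ∧
        ∀ k, k ∉ T p' e → c' k = 0 :=
      ⟨fun k => if k ∈ T p' e then c k else 0, fun k hk => if_pos hk, fun k hk => if_neg hk⟩
    refine ⟨c', ?_, ?_, ?_⟩
    · rw [← hc, ← Finset.sum_subset hsub]
      · refine Finset.sum_congr rfl fun k hk => ?_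
        rw [hc1 k hk]
      · intro k _ hk
        rw [hc2 k hk, zero_smul]
    · rw [← Finset.sum_subset hsub]
      · by_contra h1
        apply hn0
        rw [← hc]
        refine Finset.sum_eq_zero fun k hk => ?_
        have h2 : ∑ k ∈ T p' e, c' k = 0 := by omega
        have h3 := (Finset.sum_eq_zero_iff.1 h2) k hk
        rw [hc1 k hk] at h3
        rw [h3, zero_smul]
      · intro k _ hk
        rw [hc2 k hk]
    · rw [← Finset.sum_subset hsub]
      · have h1 : ∀ i, hm (f i) n = ∑ k ∈ T p' e, (c k : ℤ) * hm (f i) k := by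
          intro i
          rw [hhm n hnE i]
          conv_lhs => rw [← hc]
          rw [AddMonoidHom.finset_sum_apply]
          refine Finset.sum_congr rfl fun k hk => ?_
          rw [hhm k (hT1 p' e k hk).2 i, AddMonoidHom.nsmul_apply, nsmul_eq_mul]
        simp only [h1]
        rw [Finset.sum_comm]
        refine Finset.sum_congr rfl fun k hk => ?_
        rw [hc1 k hk, Finset.mul_sum]
      · intro k _ hk
        rw [hc2 k hk, Nat.cast_zero, zero_mul]

end T1
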